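import Mathlib

/-!
# A simple planar digraph with star dichromatic number two

The digraph has six vertices and twelve arcs.
-/

namespace Pool.Agent.Results.MP_45899d_co.SixVertices

/-! ## Definitions -/

section Defs

variable {V : Type}

/-- A digraph is given by its arc relation.  It is simple if it has no loops and no pair of
opposite arcs. -/
def IsSimpleDigraph (A : V → V → Prop) : Prop :=
  (∀ v, ¬ A v v) ∧ ∀ u v, A u v → ¬ A v u

/-- the underlying undirected graph -/
def underlying (A : V → V → Prop) : SimpleGraph V := SimpleGraph.fromRel A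

/-- `S` is acyclic: the subdigraph induced on `S` has no directed closed walk
(equivalently, no directed cycle). -/
def AcyclicSet (A : V → V → Prop) (S : Set V) : Prop :=
  ∀ v, ¬ Relation.TransGen (fun a b => a ∈ S ∧ b ∈ S ∧ A a b) v v

/-- an acyclic `(k,d)`-colouring: for every `i` the set of vertices with colour in
`{i, i+1, ..., i+d-1}` is acyclic -/
def IsAcyclicColouring (A : V → V → Prop) (k d : ℕ) (c : V → ZMod k) : Prop :=
  ∀ i : ZMod k, AcyclicSet A {v | ∃ j : ℕ, j < d ∧ c v = i + (j : ZMod k)}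

/-- the set of all ratios `k/d` for which there is an acyclic `(k,d)`-colouring -/
def ratios (A : V → V → Prop) : Set ℝ :=
  {q | ∃ k d : ℕ, 1 ≤ d ∧ d ≤ k ∧ (∃ c : V → ZMod k, IsAcyclicColouring A k d c) ∧
    q = (k : ℝ) / (d : ℝ)}

/-- the star dichromatic number -/
noncomputable def starDichromatic (A : V → V → Prop) : ℝ := sInf (ratios A)

/-- `G` has a crossing-free straight-line drawing in the plane: the vertices are distinct
points, the closed segment of an edge contains no vertex other than its ends, and the segments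
of two different edges meet at most in a common end. (By Fáry's theorem this is equivalent to
planarity for finite simple graphs.) -/
def HasStraightLineDrawing (G : SimpleGraph V) : Prop :=
  ∃ p : V → ℝ × ℝ, Function.Injective p ∧
    (∀ u v w : V, G.Adj u v → p w ∈ segment ℝ (p u) (p v) → w = u ∨ w = v) ∧
    (∀ u v x y : V, G.Adj u v → G.Adj x y → s(u, v) ≠ s(x, y) →
      ∀ q, q ∈ segment ℝ (p u) (p v) → q ∈ segment ℝ (p x) (p y) →
        ∃ w, (w = u ∨ w = v) ∧ (w = x ∨ w = y) ∧ q = p w)

end Defs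

/-! ## The digraph -/

/-- the twelve arcs -/
def arcs : Finset (Fin 6 × Fin 6) :=
  {(0, 1), (0, 2), (0, 5), (1, 3), (1, 4), (1, 5), (2, 1), (2, 4), (3, 0), (4, 0), (5, 2),
    (5, 3)}

/-- the digraph -/
def D (u v : Fin 6) : Prop := (u, v) ∈ arcs

instance : DecidableRel D := fun u v => inferInstanceAs (Decidable ((u, v) ∈ arcs))

/-! ## Planarity -/

/-- coordinates of the vertices -/
def cx : Fin 6 → ℤ := ![0, 3, 12, 1, 6, 0]

/-- coordinates of the vertices -/
def cy : Fin 6 → ℤ := ![0, 3, 0, 5, 1, 12]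

/-- orientation of a triple of vertices -/
def orient (a b c : Fin 6) : ℤ :=
  (cx b - cx a) * (cy c - cy a) - (cy b - cy a) * (cx c - cx a)

/-- the drawing -/
def pos (v : Fin 6) : ℝ × ℝ := ((cx v : ℝ), (cy v : ℝ))

/-- orientation of two vertices and a point -/
def orR (a b : Fin 6) (q : ℝ × ℝ) : ℝ :=
  ((cx b : ℝ) - cx a) * (q.2 - cy a) - ((cy b : ℝ) - cy a) * (q.1 - cx a)

lemma orR_pos (a b c : Fin 6) : orR a b (pos c) = (orient a b c : ℝ) := by
  simp only [orR, pos, orient]
  push_cast
  ring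

lemma orR_self (a b : Fin 6) {q : ℝ × ℝ} (h : q ∈ segment ℝ (pos a) (pos b)) :
    orR a b q = 0 := by
  obtain ⟨s, t, hs, ht, hst, rfl⟩ := h
  have hs' : s = 1 - t := by linarith
  simp only [orR, pos, Prod.smul_mk, smul_eq_mul, Prod.mk_add_mk, hs']
  ring

/-- the orientation of a point of a segment is a convex combination -/
lemma orR_segment (a b c d : Fin 6) {q : ℝ × ℝ} (h : q ∈ segment ℝ (pos c) (pos d)) :
    ∃ s t : ℝ, 0 ≤ s ∧ 0 ≤ t ∧ s + t = 1 ∧ q = s • pos c + t • pos d ∧
      orR a b q = s * orient a b c + t * orient a b d := by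
  obtain ⟨s, t, hs, ht, hst, rfl⟩ := h
  refine ⟨s, t, hs, ht, hst, rfl, ?_⟩
  have hs' : s = 1 - t := by linarith
  simp only [orR, pos, Prod.smul_mk, smul_eq_mul, Prod.mk_add_mk, hs', orient]
  push_cast
  ring

/-- separated segments do not meet -/
lemma separated {a b c d : Fin 6}
    (h : (0 < orient a b c ∧ 0 < orient a b d) ∨ (orient a b c < 0 ∧ orient a b d < 0))
    {q : ℝ × ℝ} (h1 : q ∈ segment ℝ (pos a) (pos b)) (h2 : q ∈ segment ℝ (pos c) (pos d)) :
    False := by
  have e1 := orR_self a b h1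
  obtain ⟨s, t, hs, ht, hst, -, e2⟩ := orR_segment a b c d h2
  rw [e1] at e2
  rcases h with ⟨hc, hd⟩ | ⟨hc, hd⟩
  · have hc' : (0 : ℝ) < orient a b c := by exact_mod_cast hc
    have hd' : (0 : ℝ) < orient a b d := by exact_mod_cast hd
    rcases eq_or_lt_of_le hs with h0 | h0
    · have : t = 1 := by linarith
      subst this
      nlinarith
    · nlinarith [mul_pos h0 hc', mul_nonneg ht hd'.le]
  · have hc' : (orient a b c : ℝ) < 0 := by exact_mod_cast hc
    have hd' : (orient a b d : ℝ) < 0 := by exact_mod_cast hd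
    rcases eq_or_lt_of_le hs with h0 | h0
    · have : t = 1 := by linarith
      subst this
      nlinarith
    · nlinarith [mul_pos h0 (neg_pos.2 hc'), mul_nonneg ht (neg_pos.2 hd').le]

/-- two segments with a common end and different directions meet only there -/
lemma common_end {a b c : Fin 6} (h : orient a b c ≠ 0) {q : ℝ × ℝ}
    (h1 : q ∈ segment ℝ (pos a) (pos b)) (h2 : q ∈ segment ℝ (pos a) (pos c)) :
    q = pos a := by
  have e1 := orR_self a b h1
  obtain ⟨s, t, hs, ht, hst, hq, e2⟩ := orR_segment a b a c h2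
  have h0 : orient a b a = 0 := by
    unfold orient
    ring
  rw [e1, h0] at e2
  have h' : (orient a b c : ℝ) ≠ 0 := by exact_mod_cast h
  have ht0 : t = 0 := by
    simp only [Int.cast_zero, mul_zero, zero_add] at e2
    exact (mul_eq_zero.1 e2.symm).resolve_right h'
  have hs1 : s = 1 := by linarith
  rw [hq, ht0, hs1]
  simp

/-- no vertex lies on the line of an edge -/
lemma general : ∀ e ∈ arcs, ∀ w : Fin 6, w ≠ e.1 → w ≠ e.2 → orient e.1 e.2 w ≠ 0 := by
  decide

lemma orient_swap (a b c : Fin 6) : orient b a c = - orient a b c := by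
  unfold orient
  ring

/-- two arcs without common end are separated -/
lemma disjoint_arcs : ∀ e ∈ arcs, ∀ f ∈ arcs, e.1 ≠ f.1 → e.1 ≠ f.2 → e.2 ≠ f.1 → e.2 ≠ f.2 →
    ((0 < orient e.1 e.2 f.1 ∧ 0 < orient e.1 e.2 f.2) ∨
      (orient e.1 e.2 f.1 < 0 ∧ orient e.1 e.2 f.2 < 0)) ∨
    ((0 < orient f.1 f.2 e.1 ∧ 0 < orient f.1 f.2 e.2) ∨
      (orient f.1 f.2 e.1 < 0 ∧ orient f.1 f.2 e.2 < 0)) := by
  decide

lemma adj_cases {u v : Fin 6} (h : (underlying D).Adj u v) :
    ((u, v) ∈ arcs ∨ (v, u) ∈ arcs) ∧ u ≠ v := by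
  rw [underlying, SimpleGraph.fromRel_adj] at h
  exact ⟨h.2, h.1⟩

lemma general' {u v w : Fin 6} (h : (underlying D).Adj u v) (hu : w ≠ u) (hv : w ≠ v) :
    orient u v w ≠ 0 := by
  obtain ⟨h | h, -⟩ := adj_cases h
  · exact general (u, v) h w hu hv
  · have := general (v, u) h w hv hu
    rw [orient_swap] at this
    simpa using this

lemma pos_injective : Function.Injective pos := by
  intro u v h
  have h1 : (cx u : ℝ) = cx v := congrArg Prod.fst h
  have h2 : (cy u : ℝ) = cy v := congrArg Prod.snd h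
  have h1' : cx u = cx v := by exact_mod_cast h1
  have h2' : cy u = cy v := by exact_mod_cast h2
  revert h1' h2' 
  clear h1 h2 h
  revert u v
  decide

lemma disjoint_edges {u v x y : Fin 6} (h : (underlying D).Adj u v)
    (h' : (underlying D).Adj x y) (h1 : u ≠ x) (h2 : u ≠ y) (h3 : v ≠ x) (h4 : v ≠ y)
    {q : ℝ × ℝ} (q1 : q ∈ segment ℝ (pos u) (pos v)) (q2 : q ∈ segment ℝ (pos x) (pos y)) :
    False := by
  have key : ∀ a b c d : Fin 6, (a, b) ∈ arcs → (c, d) ∈ arcs → a ≠ c → a ≠ d → b ≠ c →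
      b ≠ d → q ∈ segment ℝ (pos a) (pos b) → q ∈ segment ℝ (pos c) (pos d) → False := by
    intro a b c d ha hc n1 n2 n3 n4 s1 s2
    rcases disjoint_arcs (a, b) ha (c, d) hc n1 n2 n3 n4 with hs | hs
    · exact separated hs s1 s2
    · exact separated hs s2 s1
  have q1' : q ∈ segment ℝ (pos v) (pos u) := by rwa [segment_symm]
  have q2' : q ∈ segment ℝ (pos y) (pos x) := by rwa [segment_symm]
  obtain ⟨ha | ha, -⟩ := adj_cases h <;> obtain ⟨hb | hb, -⟩ := adj_cases h'
  · exact key u v x y ha hb h1 h2 h3 h4 q1 q2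
  · exact key u v y x ha hb h2 h1 h4 h3 q1 q2'
  · exact key v u x y ha hb h3 h4 h1 h2 q1' q2
  · exact key v u y x ha hb h4 h3 h2 h1 q1' q2'

lemma planar : HasStraightLineDrawing (underlying D) := by
  refine ⟨pos, pos_injective, ?_, ?_⟩
  · intro u v w h hw
    by_contra hcon
    push Not at hcon
    have h1 := orR_self u v hw
    rw [orR_pos] at h1
    exact general' h hcon.1 hcon.2 (by exact_mod_cast h1)
  · intro u v x y h h' hne q q1 q2
    have huv := (adj_cases h).2
    have hxy := (adj_cases h').2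
    have q1' : q ∈ segment ℝ (pos v) (pos u) := by rwa [segment_symm]
    have q2' : q ∈ segment ℝ (pos y) (pos x) := by rwa [segment_symm]
    by_cases e1 : u = x
    · subst e1
      have hvy : y ≠ v := by
        rintro rfl
        exact hne rfl
      exact ⟨u, Or.inl rfl, Or.inl rfl, common_end (general' h hxy.symm hvy) q1 q2⟩
    by_cases e2 : u = y
    · subst e2
      have hvx : x ≠ v := by
        rintro rfl
        exact hne Sym2.eq_swap
      exact ⟨u, Or.inl rfl, Or.inr rfl, common_end (general' h hxy hvx) q1 q2'⟩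
    by_cases e3 : v = x
    · subst e3
      have huy : y ≠ u := fun e => e2 e.symm
      exact ⟨v, Or.inr rfl, Or.inl rfl, common_end (general' h.symm hxy.symm huy) q1' q2⟩
    by_cases e4 : v = y
    · subst e4
      have hux : x ≠ u := fun e => e1 e.symm
      exact ⟨v, Or.inr rfl, Or.inr rfl, common_end (general' h.symm hxy hux) q1' q2'⟩
    exact (disjoint_edges h h' e1 e2 e3 e4 q1 q2).elim

/-! ## The upper bound -/

/-- a two-colouring -/
def col : Fin 6 → ZMod 2 := ![0, 0, 1, 1, 1, 0]

/-- a rank function increasing along the monochromatic arcs -/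
def rank : Fin 6 → ℕ := ![0, 1, 0, 0, 1, 2]

lemma rank_lt : ∀ a b : Fin 6, D a b → col a = col b → rank a < rank b := by
  decide

lemma two_colouring : IsAcyclicColouring D 2 1 col := by
  intro i v h
  have key : ∀ a b, Relation.TransGen (fun a b => a ∈ {v | ∃ j : ℕ, j < 1 ∧
      col v = i + (j : ZMod 2)} ∧ b ∈ {v | ∃ j : ℕ, j < 1 ∧ col v = i + (j : ZMod 2)} ∧ D a b)
      a b → rank a < rank b := by
    intro a b hab
    have step : ∀ x y : Fin 6, (x ∈ {v | ∃ j : ℕ, j < 1 ∧ col v = i + (j : ZMod 2)} ∧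
        y ∈ {v | ∃ j : ℕ, j < 1 ∧ col v = i + (j : ZMod 2)} ∧ D x y) → rank x < rank y := by
      rintro x y ⟨⟨j, hj, hx⟩, ⟨j', hj', hy⟩, hxy⟩
      have hj0 : j = 0 := by omega
      have hj0' : j' = 0 := by omega
      subst hj0 hj0'
      exact rank_lt x y hxy (hx.trans hy.symm)
    induction hab with
    | single h => exact step _ _ h
    | tail _ h ih => exact ih.trans (step _ _ h)
  exact lt_irrefl _ (key v v h)

/-! ## The lower bound -/

/-- a directed triangle is not contained in an acyclic set -/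
lemma triangle {S : Set (Fin 6)} (hS : AcyclicSet D S) {a b c : Fin 6} (h1 : D a b)
    (h2 : D b c) (h3 : D c a) (ha : a ∈ S) (hb : b ∈ S) (hc : c ∈ S) : False := by
  refine hS a ?_
  exact ((Relation.TransGen.single ⟨ha, hb, h1⟩).tail ⟨hb, hc, h2⟩).tail ⟨hc, ha, h3⟩

/-- In an acyclic `(k,d)`-colouring with `k < 2d`, a directed triangle `0 → u → v → 0` has
exactly one of `u`, `v` at small distance `x ≤ k - d` after vertex `0`, the other one at
distance at least `d`. -/
lemma small_large {k d : ℕ} [NeZero k] (hd : 1 ≤ d) (hdk : d ≤ k) (hk : k < 2 * d)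
    {c : Fin 6 → ZMod k} (hc : IsAcyclicColouring D k d c) {u v : Fin 6} (h1 : D 0 u)
    (h2 : D u v) (h3 : D v 0) :
    ((c u - c 0).val ≤ k - d ∧ d ≤ (c v - c 0).val) ∨
      ((c v - c 0).val ≤ k - d ∧ d ≤ (c u - c 0).val) := by
  set x := (c u - c 0).val with hx
  set y := (c v - c 0).val with hy
  have hxk : x < k := ZMod.val_lt _
  have hyk : y < k := ZMod.val_lt _
  have ex : c u = c 0 + (x : ZMod k) := by
    rw [hx, ZMod.natCast_val, ZMod.cast_id]
    ring
  have ey : c v = c 0 + (y : ZMod k) := by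
    rw [hy, ZMod.natCast_val, ZMod.cast_id]
    ring
  have ek : ((k : ℕ) : ZMod k) = 0 := ZMod.natCast_self k
  -- window starting at colour of 0
  have w1 : ¬ (x < d ∧ y < d) := by
    rintro ⟨a, b⟩
    refine triangle (hc (c 0)) h1 h2 h3 ⟨0, by omega, by simp⟩ ⟨x, a, ex⟩ ⟨y, b, ey⟩
  -- window starting at colour of u
  have w2 : ¬ (x ≤ y ∧ y < x + d ∧ k < x + d) := by
    rintro ⟨a, b, e⟩
    refine triangle (hc (c u)) h1 h2 h3 ⟨k - x, by omega, ?_⟩ ⟨0, by omega, by simp⟩
      ⟨y - x, by omega, ?_⟩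
    · rw [ex, Nat.cast_sub hxk.le, ek]
      ring
    · rw [ey, ex, Nat.cast_sub a]
      ring
  have w3 : ¬ (y ≤ x ∧ x < y + d ∧ k < y + d) := by
    rintro ⟨a, b, e⟩
    refine triangle (hc (c v)) h1 h2 h3 ⟨k - y, by omega, ?_⟩ ⟨x - y, by omega, ?_⟩
      ⟨0, by omega, by simp⟩
    · rw [ey, Nat.cast_sub hyk.le, ek]
      ring
    · rw [ey, ex, Nat.cast_sub a]
      ring
  by_cases hle : x ≤ y
  · left
    omega
  · right
    omega

lemma no_small_ratio {k d : ℕ} (hd : 1 ≤ d) (hdk : d ≤ k) (hk : k < 2 * d)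
    {c : Fin 6 → ZMod k} (hc : IsAcyclicColouring D k d c) : False := by
  have : NeZero k := ⟨by omega⟩
  have t1 := small_large hd hdk hk hc (u := 1) (v := 3) (by decide) (by decide) (by decide)
  have t2 := small_large hd hdk hk hc (u := 1) (v := 4) (by decide) (by decide) (by decide)
  have t3 := small_large hd hdk hk hc (u := 2) (v := 4) (by decide) (by decide) (by decide)
  have t4 := small_large hd hdk hk hc (u := 5) (v := 3) (by decide) (by decide) (by decide)
  have e : ∀ w : Fin 6, c w = c 0 + ((c w - c 0).val : ZMod k) := by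
    intro w
    rw [ZMod.natCast_val, ZMod.cast_id]
    ring
  have b1 : (c 1 - c 0).val < k := ZMod.val_lt _
  have b2 : (c 2 - c 0).val < k := ZMod.val_lt _
  have b5 : (c 5 - c 0).val < k := ZMod.val_lt _
  by_cases h1 : (c 1 - c 0).val ≤ k - d
  · -- 1, 5, 2 are all small
    refine triangle (hc (c 0)) (a := 1) (b := 5) (c := 2) (by decide) (by decide) (by decide)
      ⟨(c 1 - c 0).val, by omega, e 1⟩ ⟨(c 5 - c 0).val, by omega, e 5⟩
      ⟨(c 2 - c 0).val, by omega, e 2⟩
  · -- 1, 5, 2 are all large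
    have key : ∀ w : Fin 6, d ≤ (c w - c 0).val → c w = c 0 + (d : ZMod k) +
        (((c w - c 0).val - d : ℕ) : ZMod k) := by
      intro w hw
      rw [Nat.cast_sub hw, ZMod.natCast_val, ZMod.cast_id]
      ring
    refine triangle (hc (c 0 + (d : ZMod k))) (a := 1) (b := 5) (c := 2) (by decide)
      (by decide) (by decide)
      ⟨(c 1 - c 0).val - d, by omega, key 1 (by omega)⟩
      ⟨(c 5 - c 0).val - d, by omega, key 5 (by omega)⟩
      ⟨(c 2 - c 0).val - d, by omega, key 2 (by omega)⟩

lemma isLeast : IsLeast (ratios D) 2 := by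
  constructor
  · exact ⟨2, 1, le_rfl, by norm_num, ⟨col, two_colouring⟩, by norm_num⟩
  · rintro q ⟨k, d, hd, hdk, ⟨c, hc⟩, rfl⟩
    by_contra hlt
    push Not at hlt
    have hd' : (0 : ℝ) < d := by exact_mod_cast hd
    rw [div_lt_iff₀ hd'] at hlt
    have hlt' : k < 2 * d := by exact_mod_cast hlt
    exact no_small_ratio hd hdk hlt' hc

/-- There is a simple planar digraph (on six vertices) whose star dichromatic number is
exactly two. -/
theorem result :
    ∃ A : Fin 6 → Fin 6 → Prop, IsSimpleDigraph A ∧ HasStraightLineDrawing (underlying A) ∧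
      IsLeast (ratios A) 2 ∧ starDichromatic A = 2 := by
  refine ⟨D, ⟨by decide, by decide⟩, planar, isLeast, isLeast.csInf_eq⟩

end Pool.Agent.Results.MP_45899d_co.SixVertices
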